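import Pool.Agent.Q61.FB3

set_option autoImplicit false

open MeasureTheory InnerProductSpace Laplacian Topology Filter Set
open scoped ContDiff NNReal

namespace Pool.Agent.Results.MP_056161_an.CuspFreeBoundary

/-- Near `0` the boundary of `D` is, after a rotation `z ↦ κ z`, the graph of a function `g` in the
class `P`. -/
def GraphNear (D : Set ℂ) (P : (ℝ → ℝ) → Prop) : Prop :=
  ∃ ρ : ℝ, 0 < ρ ∧ ∃ κ : ℂ, ‖κ‖ = 1 ∧ ∃ g : ℝ → ℝ, P g ∧
    ∀ z : ℂ, ‖z‖ < ρ → (z ∈ frontier D ↔ (κ * z).im = g (κ * z).re)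

/-- `g` is `C^1` near `0`. -/
def C1 (g : ℝ → ℝ) : Prop := ∃ δ : ℝ, 0 < δ ∧ ContDiffOn ℝ 1 g (Ioo (-δ) δ)

/-- `g` is `C^{1,α}` near `0`. -/
def C1alpha (α : ℝ) (g : ℝ → ℝ) : Prop :=
  ∃ δ : ℝ, 0 < δ ∧ ContDiffOn ℝ 1 g (Ioo (-δ) δ) ∧
    ∃ C : ℝ, ∀ a ∈ Ioo (-δ) δ, ∀ b ∈ Ioo (-δ) δ, |deriv g a - deriv g b| ≤ C * |a - b| ^ α

/-- `g` is `C^∞` near `0`. -/
def Cinfty (g : ℝ → ℝ) : Prop := ∃ δ : ℝ, 0 < δ ∧ ContDiffOn ℝ ∞ g (Ioo (-δ) δ)

/-- `g` is real-analytic near `0`. -/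
def Comega (g : ℝ → ℝ) : Prop := ∃ δ : ℝ, 0 < δ ∧ AnalyticOn ℝ g (Ioo (-δ) δ)

/-- `u ∈ C^{1,1}(B_2)`, `Δu = x_1 χ_D` almost everywhere in `B_2` and `u = 0` in `B_2 \ closure D`,
where the plane is `ℂ`, `x_1 = Re z` and `B_2` is the open disc of radius `2`. -/
structure IsSol (D : Set ℂ) (u : ℂ → ℝ) : Prop where
  diff : ∀ z ∈ Metric.ball (0:ℂ) 2, DifferentiableAt ℝ u z
  c11 : ∃ K : ℝ≥0, LipschitzOnWith K (fderiv ℝ u) (Metric.ball (0:ℂ) 2)
  eqn : ∀ᵐ z : ℂ, z ∈ Metric.ball (0:ℂ) 2 →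
    DifferentiableAt ℝ (fderiv ℝ u) z ∧ (Δ u) z = D.indicator (fun z => z.re) z
  zero : ∀ z ∈ Metric.ball (0:ℂ) 2, z ∉ closure D → u z = 0

open Q61.FB in
theorem closure_D : closure Q61.FB.D = {z : ℂ | Γ z.im ≤ z.re} := by
  apply Subset.antisymm
  · apply closure_minimal
    · intro z hz
      have h1 : Γ z.im < z.re := hz
      exact h1.le
    · exact isClosed_le (Γ_cont.comp Complex.continuous_im) Complex.continuous_re
  · intro z hz
    rw [Metric.mem_closure_iff]
    intro ε hε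
    refine ⟨z + ((ε / 2 : ℝ) : ℂ), ?_, ?_⟩
    · show Γ (z + ((ε / 2 : ℝ) : ℂ)).im < (z + ((ε / 2 : ℝ) : ℂ)).re
      have : Γ z.im ≤ z.re := hz
      simp only [Complex.add_im, Complex.ofReal_im, add_zero, Complex.add_re, Complex.ofReal_re]
      linarith
    · rw [dist_eq_norm]
      have : z - (z + ((ε / 2 : ℝ) : ℂ)) = -((ε / 2 : ℝ) : ℂ) := by ring
      rw [this, norm_neg, Complex.norm_real, Real.norm_of_nonneg (by positivity)]
      linarith

open Q61.FB in
theorem frontier_D (z : ℂ) : z ∈ frontier Q61.FB.D ↔ Γ z.im = z.re := by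
  rw [frontier, D_open.interior_eq, closure_D]
  simp only [Set.mem_sdiff, mem_ofPred_eq]
  constructor
  · rintro ⟨h1, h2⟩
    have h3 : ¬ (Γ z.im < z.re) := h2
    linarith
  · intro h
    refine ⟨h.le, ?_⟩
    intro h2
    have h3 : Γ z.im < z.re := h2
    linarith

open Q61.FB in
theorem null_bdry : ∀ᵐ z : ℂ, z ∈ Metric.ball (0:ℂ) 2 → Γ z.im ≠ z.re := by
  have h0 : volume (frontier A) = 0 := A_convex.addHaar_frontier volume
  rw [ae_iff]
  refine measure_mono_null ?_ h0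
  intro z hz
  simp only [mem_ofPred_eq, Classical.not_imp, not_not, ne_eq] at hz
  obtain ⟨hz1, hz2⟩ := hz
  rw [Metric.mem_ball, dist_zero_right] at hz1
  rw [frontier, A_open.interior_eq]
  refine ⟨?_, ?_⟩
  · rw [Metric.mem_closure_iff]
    intro ε hε
    set η : ℝ := min (ε / 2) ((2 - ‖z‖) / 2) with hη
    have hη0 : 0 < η := lt_min (by positivity) (by linarith)
    refine ⟨z + (η : ℂ), ⟨?_, ?_⟩, ?_⟩
    · show Γ (z + (η : ℂ)).im < (z + (η : ℂ)).re
      simp only [Complex.add_im, Complex.ofReal_im, add_zero, Complex.add_re, Complex.ofReal_re]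
      rw [hz2]; linarith
    · rw [Metric.mem_ball, dist_zero_right]
      refine (norm_add_le _ _).trans_lt ?_
      rw [Complex.norm_real, Real.norm_of_nonneg hη0.le]
      have := min_le_right (ε / 2) ((2 - ‖z‖) / 2)
      linarith
    · rw [dist_eq_norm]
      have : z - (z + (η : ℂ)) = -(η : ℂ) := by ring
      rw [this, norm_neg, Complex.norm_real, Real.norm_of_nonneg hη0.le]
      have := min_le_left (ε / 2) ((2 - ‖z‖) / 2)
      linarith
  · intro h
    have : Γ z.im < z.re := h.1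
    linarith

open Q61.FB in
theorem isSol : IsSol Q61.FB.D u where
  diff := fun z hz => (u_deriv (by simpa using hz)).differentiableAt
  c11 := by
    refine ⟨⟨Lc, Lc_pos.le⟩, ?_⟩
    apply LipschitzOnWith.of_dist_le_mul
    intro z hz w hw
    have hz' : ‖z‖ < 2 := by simpa using hz
    have hw' : ‖w‖ < 2 := by simpa using hw
    rw [fderiv_u hz', fderiv_u hw', dist_eq_norm, dist_eq_norm, ← map_sub]
    exact (L_norm _).trans (Q_lip hz' hw')
  eqn := by
    filter_upwards [null_bdry] with z hz hzb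
    have hne := hz hzb
    have hz' : ‖z‖ < 2 := by simpa using hzb
    rcases lt_or_gt_of_ne hne with h | h
    · have hD : z ∈ Q61.FB.D := h
      have h1 := lap_u (z := z) ⟨hD, hzb⟩
      rw [indicator_of_mem hD]
      exact h1
    · have hD : z ∉ Q61.FB.D := fun h' => by have : Γ z.im < z.re := h'; linarith
      rw [indicator_of_notMem hD]
      have ho : IsOpen {w : ℂ | w.re < Γ w.im} :=
        isOpen_lt Complex.continuous_re (Γ_cont.comp Complex.continuous_im)
      have hev : u =ᶠ[𝓝 z] fun _ => (0:ℝ) := by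
        filter_upwards [ho.mem_nhds h] with w hw
        unfold u
        rw [if_neg]
        intro h'
        have h1 : Γ w.im < w.re := h'
        have h2 : w.re < Γ w.im := hw
        linarith
      have hev2 := hev.fderiv (𝕜 := ℝ)
      constructor
      · have h3 : DifferentiableAt ℝ (fderiv ℝ (fun _ : ℂ => (0:ℝ))) z := by
          simp
        exact h3.congr_of_eventuallyEq hev2
      · rw [Q61.lap_plane, hev2.fderiv_eq]
        simp
  zero := by
    intro z _ h
    unfold u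
    rw [if_neg]
    intro h'
    exact h (subset_closure h')

open Q61.FB in
/-- explicit boundary points -/
theorem bdry_pt {x : ℝ} (hx : 4 ≤ x) :
    (⟨c * Real.exp (4 - x), x * Real.exp (4 - x)⟩ : ℂ) ∈ frontier Q61.FB.D := by
  rw [frontier_D]
  simp only
  set t := Real.exp (4 - x) with ht
  have ht0 : 0 < t := Real.exp_pos _
  have ht1 : t ≤ 1 := by
    rw [ht]
    have := Real.exp_le_exp.2 (by linarith : 4 - x ≤ 0)
    rwa [Real.exp_zero] at this
  have h1 : K t = x * t := by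
    rw [K_of_mem (by rw [abs_of_pos ht0]; linarith)]
    unfold K0 Real.negMulLog
    rw [ht, Real.log_exp]; ring
  unfold Γ
  rw [← h1, G_K, abs_of_pos ht0]

/-- `x e^{4-x} → 0` -/
theorem lim_y : Tendsto (fun x : ℝ => x * Real.exp (4 - x)) atTop (𝓝 0) := by
  have h := tendsto_rpow_mul_exp_neg_mul_atTop_nhds_zero 1 1 one_pos
  have h2 := h.const_mul (Real.exp 4)
  rw [mul_zero] at h2
  refine h2.congr fun x => ?_
  rw [Real.rpow_one, sub_eq_add_neg, Real.exp_add]
  ring_nf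

theorem lim_pow {α : ℝ} (hα : 0 < α) (B : ℝ) :
    Tendsto (fun x : ℝ => B * (2 * (x * Real.exp (4 - x))) ^ α) atTop (𝓝 0) := by
  have h1 := (lim_y.const_mul 2).rpow_const (p := α) (Or.inr hα.le)
  rw [mul_zero, Real.zero_rpow hα.ne'] at h1
  simpa using h1.const_mul B

theorem lim_pow2 {α : ℝ} (hα : 0 < α) (B : ℝ) :
    Tendsto (fun x : ℝ => B * (x * (2 * (x * Real.exp (4 - x))) ^ α)) atTop (𝓝 0) := by
  have h := tendsto_rpow_mul_exp_neg_mul_atTop_nhds_zero (1 + α) α hα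
  have h2 := h.const_mul (B * 2 ^ α * (Real.exp 4) ^ α)
  rw [mul_zero] at h2
  refine h2.congr' ?_
  filter_upwards [eventually_gt_atTop 0] with x hx
  have e1 : (2 * (x * Real.exp (4 - x))) ^ α = 2 ^ α * (x ^ α * ((Real.exp 4) ^ α *
      Real.exp (-α * x))) := by
    rw [Real.mul_rpow (by norm_num) (by positivity), Real.mul_rpow hx.le (by positivity)]
    congr 2
    rw [← Real.exp_mul, ← Real.exp_mul, ← Real.exp_add]
    congr 1; ring
  rw [e1, Real.rpow_add hx, Real.rpow_one]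
  ring

open Q61.FB in
theorem not_c1alpha {α : ℝ} (hα : 0 < α) : ¬ GraphNear Q61.FB.D (C1alpha α) := by
  rintro ⟨ρ, hρ, κ, hκ, g, ⟨δ, hδ, hg1, C, hC⟩, hgr⟩
  set p := κ.re with hp
  set q := κ.im with hq
  have hpq : p ^ 2 + q ^ 2 = 1 := by
    have := Complex.normSq_eq_norm_sq κ
    rw [hκ, Complex.normSq_apply] at this
    rw [hp, hq]; nlinarith
  set m := deriv g 0 with hm
  have hg0 : g 0 = 0 := by
    have h1 : (0:ℂ) ∈ frontier Q61.FB.D := by rw [frontier_D]; simp [Γ_zero]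
    have := (hgr 0 (by simpa using hρ)).1 h1
    simpa using this.symm
  have hgd : ∀ s ∈ Ioo (-δ) δ, HasDerivAt g (deriv g s) s := by
    intro s hs
    have := (hg1.differentiableOn (by norm_num) s hs).differentiableAt (isOpen_Ioo.mem_nhds hs)
    exact this.hasDerivAt
  -- Taylor estimate
  have htay : ∀ a : ℝ, |a| < δ → |g a - m * a| ≤ |C| * |a| ^ α * |a| := by
    intro a ha
    have hsub : Icc (-|a|) |a| ⊆ Ioo (-δ) δ := fun s hs => ⟨by linarith [hs.1], by linarith [hs.2]⟩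
    have hd : ∀ s ∈ Icc (-|a|) |a|, HasDerivWithinAt (fun s => g s - m * s) (deriv g s - m)
        (Icc (-|a|) |a|) s := by
      intro s hs
      have h1 : HasDerivAt (fun s : ℝ => m * s) m s := by simpa using (hasDerivAt_id s).const_mul m
      exact ((hgd s (hsub hs)).sub h1).hasDerivWithinAt
    have hb : ∀ s ∈ Icc (-|a|) |a|, ‖deriv g s - m‖ ≤ |C| * |a| ^ α := by
      intro s hs
      rw [Real.norm_eq_abs, hm]
      have h1 := hC s (hsub hs) 0 ⟨by linarith, hδ⟩
      rw [sub_zero] at h1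
      have h2 : |s| ≤ |a| := abs_le.2 hs
      have h3 : |s| ^ α ≤ |a| ^ α := Real.rpow_le_rpow (abs_nonneg _) h2 hα.le
      have h4 : (0:ℝ) ≤ |s| ^ α := Real.rpow_nonneg (abs_nonneg _) _
      calc |deriv g s - deriv g 0| ≤ C * |s| ^ α := h1
        _ ≤ |C| * |s| ^ α := mul_le_mul_of_nonneg_right (le_abs_self C) h4
        _ ≤ |C| * |a| ^ α := mul_le_mul_of_nonneg_left h3 (abs_nonneg _)
    have := (convex_Icc (-|a|) |a|).norm_image_sub_le_of_norm_hasDerivWithin_le hd hb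
      (x := 0) (y := a) ⟨by linarith [abs_nonneg a], abs_nonneg a⟩ ⟨neg_abs_le a, le_abs_self a⟩
    simpa [hg0] using this
  have hlimT : Tendsto (fun x : ℝ => Real.exp (4 - x)) atTop (𝓝 0) := by
    have h1 : Tendsto (fun x : ℝ => 4 - x) atTop atBot := by
      apply tendsto_atBot_add_const_left
      exact tendsto_neg_atTop_atBot
    exact Real.tendsto_exp_atBot.comp h1
  -- the main inequality
  have hev : ∀ᶠ x : ℝ in atTop, |(p + m * q) + c / x * (q - m * p)| ≤
      (2 * |C|) * (2 * (x * Real.exp (4 - x))) ^ α := by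
    have l1 : ∀ᶠ x : ℝ in atTop, 2 * (x * Real.exp (4 - x)) < min δ ρ := by
      have := lim_y.const_mul 2
      rw [mul_zero] at this
      exact this.eventually (gt_mem_nhds (lt_min hδ hρ))
    filter_upwards [l1, eventually_ge_atTop 4] with x hx1 hx2
    have hx0 : (0:ℝ) < x := by linarith
    set t := Real.exp (4 - x) with ht
    have ht0 : 0 < t := Real.exp_pos _
    have hc2 := c_lt_two
    have hc0 := c_pos
    set z : ℂ := ⟨c * t, x * t⟩ with hz
    have hzn : ‖z‖ ≤ 2 * (x * t) := by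
      refine (Complex.norm_le_abs_re_add_abs_im z).trans ?_
      simp only [hz]
      rw [abs_of_pos (by positivity), abs_of_pos (by positivity)]
      nlinarith
    have hzf := bdry_pt hx2
    have hgz := (hgr z (lt_of_le_of_lt hzn (lt_of_lt_of_le hx1 (min_le_right _ _)))).1 hzf
    have ha : |(κ * z).re| ≤ 2 * (x * t) := by
      refine (Complex.abs_re_le_norm _).trans ?_
      rw [norm_mul, hκ, one_mul]; exact hzn
    have hta := htay _ (lt_of_le_of_lt ha (lt_of_lt_of_le hx1 (min_le_left _ _)))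
    rw [← hgz] at hta
    have e1 : (κ * z).im - m * (κ * z).re = x * t * ((p + m * q) + c / x * (q - m * p)) := by
      simp only [Complex.mul_im, Complex.mul_re, hz, ← hp, ← hq]
      field_simp
      ring
    rw [e1, abs_mul, abs_of_pos (by positivity : 0 < x * t)] at hta
    have h3 : |(κ * z).re| ^ α ≤ (2 * (x * t)) ^ α := Real.rpow_le_rpow (abs_nonneg _) ha hα.le
    have h4 : |C| * |(κ * z).re| ^ α * |(κ * z).re| ≤ |C| * (2 * (x * t)) ^ α * (2 * (x * t)) := by
      apply mul_le_mul _ ha (abs_nonneg _) (by positivity)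
      exact mul_le_mul_of_nonneg_left h3 (abs_nonneg _)
    have h5 : x * t * |(p + m * q) + c / x * (q - m * p)| ≤
        x * t * ((2 * |C|) * (2 * (x * t)) ^ α) := by
      refine hta.trans (h4.trans (le_of_eq ?_))
      ring
    exact le_of_mul_le_mul_left h5 (by positivity)
  have hzero : p + m * q = 0 := by
    have l1 : Tendsto (fun x : ℝ => |(p + m * q) + c / x * (q - m * p)|) atTop
        (𝓝 |(p + m * q) + 0 * (q - m * p)|) := by
      apply Tendsto.abs
      apply Tendsto.add tendsto_const_nhds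
      apply Tendsto.mul_const
      exact tendsto_const_nhds.div_atTop tendsto_id
    have l2 := le_of_tendsto_of_tendsto l1 (lim_pow hα (2 * |C|)) hev
    rw [zero_mul, add_zero] at l2
    exact abs_eq_zero.1 (le_antisymm l2 (abs_nonneg _))
  have hone : 1 ≤ |q - m * p| := by
    have h1 : (q - m * p) ^ 2 = (1 + m ^ 2) - (p + m * q) ^ 2 := by
      have : (1 + m ^ 2) * (p ^ 2 + q ^ 2) = 1 + m ^ 2 := by rw [hpq, mul_one]
      nlinarith
    rw [hzero] at h1
    rw [← one_le_sq_iff_one_le_abs, h1]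
    nlinarith [sq_nonneg m]
  have hfin : ∀ᶠ x : ℝ in atTop, c ≤ (2 * |C|) * (x * (2 * (x * Real.exp (4 - x))) ^ α) := by
    filter_upwards [hev, eventually_gt_atTop 0] with x hx hx0
    rw [hzero, zero_add, abs_mul, abs_of_pos (div_pos c_pos hx0)] at hx
    have h1 : c / x ≤ c / x * |q - m * p| := by
      have := div_pos c_pos hx0
      nlinarith
    have h2 := h1.trans hx
    rw [div_le_iff₀ hx0] at h2
    linarith
  have := ge_of_tendsto (lim_pow2 hα (2 * |C|)) hfin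
  linarith [c_pos]

theorem graphNear_mono {D : Set ℂ} {P P' : (ℝ → ℝ) → Prop} (h : ∀ g, P g → P' g)
    (hP : GraphNear D P) : GraphNear D P' := by
  obtain ⟨ρ, hρ, κ, hκ, g, hg, hgr⟩ := hP
  exact ⟨ρ, hρ, κ, hκ, g, h g hg, hgr⟩

theorem cinfty_imp (g : ℝ → ℝ) (h : Cinfty g) : C1alpha (1 / 2) g := by
  obtain ⟨δ, hδ, hg⟩ := h
  have h2 : ContDiffOn ℝ 2 g (Ioo (-δ) δ) := hg.of_le ENat.LEInfty.out
  have h0 : (0:ℝ) ∈ Ioo (-δ) δ := ⟨by linarith, hδ⟩
  have h3 : ContDiffAt ℝ 2 g 0 := (h2 0 h0).contDiffAt (isOpen_Ioo.mem_nhds h0)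
  have h4 : ContDiffAt ℝ 1 (deriv g) 0 := by
    have h5 := h3.fderiv_right (m := 1) (by norm_num)
    have h6 : (deriv g) = fun z => fderiv ℝ g z 1 := by funext z; simp
    rw [h6]
    exact h5.clm_apply contDiffAt_const
  obtain ⟨K, t, ht, hK⟩ := h4.exists_lipschitzOnWith
  obtain ⟨ε, hε, hεt⟩ := Metric.mem_nhds_iff.1 ht
  set η := min δ (min ε (1 / 2)) with hη
  have hη0 : 0 < η := lt_min hδ (lt_min hε (by norm_num))
  have hη1 : η ≤ δ := min_le_left _ _
  have hη2 : η ≤ ε := (min_le_right _ _).trans (min_le_left _ _)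
  have hη3 : η ≤ 1 / 2 := (min_le_right _ _).trans (min_le_right _ _)
  refine ⟨η, hη0, (h2.of_le (by norm_num)).mono
    (fun s hs => ⟨by linarith [hs.1], by linarith [hs.2]⟩), K, ?_⟩
  intro a ha b hb
  have ha' : a ∈ t := hεt (by
    rw [Metric.mem_ball, dist_zero_right, Real.norm_eq_abs, abs_lt]
    exact ⟨by linarith [ha.1], by linarith [ha.2]⟩)
  have hb' : b ∈ t := hεt (by
    rw [Metric.mem_ball, dist_zero_right, Real.norm_eq_abs, abs_lt]
    exact ⟨by linarith [hb.1], by linarith [hb.2]⟩)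
  have h7 := hK.dist_le_mul a ha' b hb'
  rw [Real.dist_eq, Real.dist_eq] at h7
  refine h7.trans (mul_le_mul_of_nonneg_left ?_ K.coe_nonneg)
  have h8 : |a - b| ≤ 1 := by
    rw [abs_le]; constructor <;> linarith [ha.1, ha.2, hb.1, hb.2]
  have h9 := Real.rpow_le_rpow_of_exponent_ge' (abs_nonneg (a - b)) h8
    (by norm_num : (0:ℝ) ≤ 1 / 2) (by norm_num : (1:ℝ) / 2 ≤ 1)
  rwa [Real.rpow_one] at h9

theorem comega_imp (g : ℝ → ℝ) (h : Comega g) : Cinfty g := by
  obtain ⟨δ, hδ, hg⟩ := h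
  exact ⟨δ, hδ, hg.contDiffOn isOpen_Ioo.uniqueDiffOn⟩

open Q61.FB in
theorem isC1 : GraphNear Q61.FB.D C1 := by
  refine ⟨1, one_pos, Complex.I, by simp, fun s => Γ (-s), ⟨2, by norm_num, ?_⟩, ?_⟩
  · apply Γ_contDiffOn.comp (contDiff_neg.contDiffOn)
    intro s hs
    exact ⟨by linarith [hs.2], by linarith [hs.1]⟩
  · intro z _
    rw [frontier_D]
    simp only [Complex.I_mul_im, Complex.I_mul_re, neg_neg]
    exact eq_comm

/-- **Disproof of (a), (b) and (c).** There are a globally Lipschitz function `Γ` with `Γ 0 = 0`,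
the domain `D = {x_1 > Γ(x_2)}` and a solution `u ∈ C^{1,1}(B_2)` of `Δu = x_1 χ_D` in `B_2`,
`u = 0` in `B_2 \ closure D`, such that `∂D` is `C^1` near `0 ∈ ∂D` but is not `C^{1,α}` near `0`
for any `α > 0`; in particular it is neither `C^∞` nor real-analytic near `0`. -/
theorem result : ∃ (Γ : ℝ → ℝ) (D : Set ℂ) (u : ℂ → ℝ),
    LipschitzWith 1 Γ ∧ Γ 0 = 0 ∧ D = {z : ℂ | Γ z.im < z.re} ∧ (0:ℂ) ∈ frontier D ∧
    IsSol D u ∧ GraphNear D C1 ∧
    (∀ α : ℝ, 0 < α → ¬ GraphNear D (C1alpha α)) ∧ ¬ GraphNear D Cinfty ∧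
    ¬ GraphNear D Comega := by
  refine ⟨Q61.FB.Γ, Q61.FB.D, Q61.FB.u, Q61.FB.Γ_lip, Q61.FB.Γ_zero, rfl, ?_, isSol, isC1,
    fun α hα => not_c1alpha hα, ?_, ?_⟩
  · rw [frontier_D]; simp [Q61.FB.Γ_zero]
  · intro h
    exact not_c1alpha (by norm_num : (0:ℝ) < 1 / 2) (graphNear_mono cinfty_imp h)
  · intro h
    exact not_c1alpha (by norm_num : (0:ℝ) < 1 / 2)
      (graphNear_mono cinfty_imp (graphNear_mono comega_imp h))

end Pool.Agent.Results.MP_056161_an.CuspFreeBoundary
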